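import Pool.Agent.W837.GB.Defs

/-! Gaussian integration by parts. -/

set_option autoImplicit false

open MeasureTheory ProbabilityTheory Filter Topology
open scoped NNReal

namespace Pool.Agent.W74.GB

open Pool.Agent.W837.GB

lemma pdf_eq : gaussianPDFReal 0 1 = fun x : ℝ =>
    (√(2 * Real.pi))⁻¹ * Real.exp (-(1 / 2) * x ^ 2) := by
  funext x
  simp only [gaussianPDFReal, NNReal.coe_one, mul_one, sub_zero]
  congr 2
  ring

lemma pdf_deriv (x : ℝ) : HasDerivAt (gaussianPDFReal 0 1) (-(x * gaussianPDFReal 0 1 x)) x := by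
  rw [pdf_eq]
  have h1 : HasDerivAt (fun x : ℝ => -(1 / 2) * x ^ 2) (-(1 / 2) * (2 * x)) x := by
    have := (hasDerivAt_pow 2 x).const_mul (-(1 / 2) : ℝ)
    simpa using this
  have h2 := (h1.exp).const_mul (√(2 * Real.pi))⁻¹
  have h3 : -(x * ((fun x : ℝ => (√(2 * Real.pi))⁻¹ * Real.exp (-(1 / 2) * x ^ 2)) x)) =
      (√(2 * Real.pi))⁻¹ * (Real.exp (-(1 / 2) * x ^ 2) * (-(1 / 2) * (2 * x))) := by
    simp only
    ring
  rw [h3]
  exact h2

lemma pdf_integrable : Integrable (gaussianPDFReal 0 1) := integrable_gaussianPDFReal 0 1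

lemma mul_pdf_integrable : Integrable (fun x : ℝ => x * gaussianPDFReal 0 1 x) := by
  rw [pdf_eq]
  have h := (integrable_mul_exp_neg_mul_sq (b := 1 / 2) (by norm_num)).const_mul
    (√(2 * Real.pi))⁻¹
  refine h.congr (Filter.Eventually.of_forall fun x => ?_)
  simp only
  ring

/-- one variable -/
lemma ibp1 (φ φ' : ℝ → ℂ) (C : ℝ) (h : ∀ x, HasDerivAt φ (φ' x) x) (hc' : Continuous φ')
    (hb : ∀ x, ‖φ x‖ ≤ C) (hb' : ∀ x, ‖φ' x‖ ≤ C) :
    ∫ x, (x : ℂ) * φ x ∂(gaussianReal 0 1) = ∫ x, φ' x ∂(gaussianReal 0 1) := by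
  have hφc : Continuous φ := continuous_iff_continuousAt.2 fun x => (h x).continuousAt
  rw [integral_gaussianReal_eq_integral_smul one_ne_zero,
    integral_gaussianReal_eq_integral_smul one_ne_zero]
  have hv : ∀ x : ℝ, HasDerivAt (fun x => ((gaussianPDFReal 0 1 x : ℝ) : ℂ))
      ((-(x * gaussianPDFReal 0 1 x) : ℝ) : ℂ) x := fun x => (pdf_deriv x).ofReal_comp
  have i1 : Integrable (fun x : ℝ => ((-(x * gaussianPDFReal 0 1 x) : ℝ) : ℂ)) :=
    mul_pdf_integrable.neg.ofReal
  have i2 : Integrable (fun x : ℝ => ((gaussianPDFReal 0 1 x : ℝ) : ℂ)) :=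
    pdf_integrable.ofReal
  have huv' : Integrable (φ * fun x : ℝ => ((-(x * gaussianPDFReal 0 1 x) : ℝ) : ℂ)) :=
    i1.bdd_mul hφc.aestronglyMeasurable (Filter.Eventually.of_forall hb)
  have hu'v : Integrable (φ' * fun x : ℝ => ((gaussianPDFReal 0 1 x : ℝ) : ℂ)) :=
    i2.bdd_mul hc'.aestronglyMeasurable (Filter.Eventually.of_forall hb')
  have huv : Integrable (φ * fun x : ℝ => ((gaussianPDFReal 0 1 x : ℝ) : ℂ)) :=
    i2.bdd_mul hφc.aestronglyMeasurable (Filter.Eventually.of_forall hb)
  have key := integral_mul_deriv_eq_deriv_mul_of_integrable (fun x _ => h x) (fun x _ => hv x)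
    huv' hu'v huv
  have e1 : ∀ x : ℝ, gaussianPDFReal 0 1 x • ((x : ℂ) * φ x) =
      -(φ x * ((-(x * gaussianPDFReal 0 1 x) : ℝ) : ℂ)) := by
    intro x
    rw [Complex.real_smul]
    push_cast
    ring
  have e2 : ∀ x : ℝ, gaussianPDFReal 0 1 x • φ' x =
      φ' x * ((gaussianPDFReal 0 1 x : ℝ) : ℂ) := by
    intro x
    rw [Complex.real_smul, mul_comm]
  simp_rw [e1, e2]
  rw [integral_neg, key, neg_neg]

/-- replacing one coordinate by an independent copy does not change the law -/
lemma upd (ι : Type) [Fintype ι] [DecidableEq ι] (k : ι) :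
    MeasurePreserving (fun p : ℝ × (ι → ℝ) => Function.update p.2 k p.1)
      ((gaussianReal 0 1).prod (gam ι)) (gam ι) := by
  have hm : Measurable (fun p : ℝ × (ι → ℝ) => Function.update p.2 k p.1) := by
    refine measurable_pi_iff.2 fun i => ?_
    by_cases hi : i = k
    · subst hi
      simp only [Function.update_self]
      exact measurable_fst
    · simp only [Function.update_of_ne hi]
      exact (measurable_pi_apply i).comp measurable_snd
  refine ⟨hm, ?_⟩
  symm
  unfold gam
  refine Measure.pi_eq fun s hs => ?_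
  rw [Measure.map_apply hm (MeasurableSet.univ_pi hs)]
  have hpre : (fun p : ℝ × (ι → ℝ) => Function.update p.2 k p.1) ⁻¹' (Set.univ.pi s) =
      s k ×ˢ (Set.univ.pi (Function.update s k Set.univ)) := by
    ext ⟨t, x⟩
    simp only [Set.mem_preimage, Set.mem_pi, Set.mem_univ, true_implies, Set.mem_prod]
    constructor
    · intro h
      refine ⟨by simpa using h k, fun i => ?_⟩
      by_cases hi : i = k
      · subst hi; rw [Function.update_self]; trivial
      · have := h i
        rw [Function.update_of_ne hi] at this ⊢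
        exact this
    · rintro ⟨h1, h2⟩ i
      by_cases hi : i = k
      · subst hi; rw [Function.update_self]; exact h1
      · have := h2 i
        rw [Function.update_of_ne hi] at this ⊢
        exact this
  rw [hpre, Measure.prod_prod, Measure.pi_pi]
  rw [← Finset.mul_prod_erase Finset.univ _ (Finset.mem_univ k),
    ← Finset.mul_prod_erase Finset.univ (fun i => (gaussianReal 0 1) (s i)) (Finset.mem_univ k)]
  rw [Function.update_self, measure_univ, one_mul]
  congr 1
  refine Finset.prod_congr rfl fun i hi => ?_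
  rw [Function.update_of_ne (Finset.ne_of_mem_erase hi)]

theorem ibp : S_IBP := by
  intro ι _ _ f C k hf hb hb'
  have hC : 0 ≤ C := (norm_nonneg _).trans (hb 0)
  have hfc : Continuous f := hf.continuous
  have hdc : Continuous (fun x => fderiv ℝ f x (Pi.single k 1)) :=
    (hf.continuous_fderiv one_ne_zero).clm_apply continuous_const
  have : IsProbabilityMeasure (gam ι) := by unfold gam; infer_instance
  set C' : ℝ := max C (C * ‖(Pi.single k 1 : ι → ℝ)‖) with hC'
  have hd : ∀ x, ‖fderiv ℝ f x (Pi.single k 1)‖ ≤ C' := fun x =>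
    ((ContinuousLinearMap.le_opNorm _ _).trans
      (mul_le_mul_of_nonneg_right (hb' x) (norm_nonneg _))).trans (le_max_right _ _)
  -- integrability
  have hxk : Integrable (fun x : ι → ℝ => ((x k : ℝ) : ℂ)) (gam ι) := by
    have h1 : MeasurePreserving (Function.eval k) (gam ι) (gaussianReal 0 1) := by
      unfold gam
      exact measurePreserving_eval _ k
    have h2 : Integrable (fun t : ℝ => ((t : ℝ) : ℂ)) (gaussianReal 0 1) := by
      have : Integrable (fun t : ℝ => t) (gaussianReal 0 1) :=
        memLp_one_iff_integrable.1 (memLp_id_gaussianReal 1)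
      exact this.ofReal
    exact h1.integrable_comp_of_integrable h2
  have hI1 : Integrable (fun x : ι → ℝ => (x k : ℂ) * f x) (gam ι) :=
    hxk.mul_bdd hfc.aestronglyMeasurable (Filter.Eventually.of_forall hb)
  have hI2 : Integrable (fun x : ι → ℝ => fderiv ℝ f x (Pi.single k 1)) (gam ι) :=
    Integrable.of_bound hdc.aestronglyMeasurable C' (Filter.Eventually.of_forall hd)
  have hU := upd ι k
  have tr : ∀ G : (ι → ℝ) → ℂ, Integrable G (gam ι) →
      ∫ x, G x ∂(gam ι) =
        ∫ x, ∫ t, G (Function.update x k t) ∂(gaussianReal 0 1) ∂(gam ι) := by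
    intro G hG
    have h1 : ∫ x, G x ∂(gam ι) = ∫ p : ℝ × (ι → ℝ), G (Function.update p.2 k p.1)
        ∂((gaussianReal 0 1).prod (gam ι)) := by
      conv_lhs => rw [← hU.map_eq]
      rw [integral_map hU.measurable.aemeasurable]
      rw [hU.map_eq]
      exact hG.aestronglyMeasurable
    rw [h1, integral_prod_symm]
    exact hU.integrable_comp_of_integrable hG
  rw [tr _ hI1, tr _ hI2]
  refine integral_congr_ae (Filter.Eventually.of_forall fun x => ?_)
  simp only [Function.update_self]
  have hder : ∀ t, HasDerivAt (fun t => f (Function.update x k t))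
      (fderiv ℝ f (Function.update x k t) (Pi.single k 1)) t := by
    intro t
    have h1 : HasFDerivAt f (fderiv ℝ f (Function.update x k t)) (Function.update x k t) :=
      (hf.differentiable one_ne_zero _).hasFDerivAt
    have h2 : HasDerivAt (fun t : ℝ => Function.update x k t) (Pi.single k 1) t := by
      exact hasDerivAt_update x k t
    exact h1.comp_hasDerivAt t h2
  refine ibp1 _ _ C' hder ?_ (fun t => (hb _).trans (le_max_left _ _)) (fun t => hd _)
  have : Continuous (fun t : ℝ => Function.update x k t) := continuous_const.update k continuous_id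
  exact hdc.comp this

end Pool.Agent.W74.GB
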