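import Pool.Agent.W837.GB.Defs

/-! Fubini reduction to the principal block and the border. -/

set_option autoImplicit false

open MeasureTheory ProbabilityTheory Filter Topology
open scoped NNReal ENNReal Matrix

namespace Pool.Agent.W74.GB

open Pool.Agent.W837.GB

instance probgam (ι : Type) [Fintype ι] : IsProbabilityMeasure (gam ι) := by
  unfold gam; infer_instance

lemma W_apply {n : ℕ} {ν κ : Type} (a : Fin n → Matrix ν ν ℂ) (g : Fin n × κ × κ → ℝ)
    (x y : ν) (k l : κ) :
    W a g (x, k) (y, l) = ∑ j, a j x y * Hm (fun k l => g (j, k, l)) k l := by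
  unfold W
  rw [Matrix.sum_apply]
  rfl

/-- the index equivalence -/
def EE (n N' K : ℕ) : (Fin n × Fin N' × Fin N') ⊕ Bd n N' K ≃
    Fin n × Fin (N' + K) × Fin (N' + K) where
  toFun
    | Sum.inl (j, x, y) => (j, finSumFinEquiv (Sum.inl x), finSumFinEquiv (Sum.inl y))
    | Sum.inr (j, Sum.inl (x, y)) => (j, finSumFinEquiv (Sum.inl x), finSumFinEquiv (Sum.inr y))
    | Sum.inr (j, Sum.inr (Sum.inl (x, y))) =>
        (j, finSumFinEquiv (Sum.inr x), finSumFinEquiv (Sum.inl y))
    | Sum.inr (j, Sum.inr (Sum.inr (x, y))) =>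
        (j, finSumFinEquiv (Sum.inr x), finSumFinEquiv (Sum.inr y))
  invFun i := match i.1, finSumFinEquiv.symm i.2.1, finSumFinEquiv.symm i.2.2 with
    | j, Sum.inl x, Sum.inl y => Sum.inl (j, x, y)
    | j, Sum.inl x, Sum.inr y => Sum.inr (j, Sum.inl (x, y))
    | j, Sum.inr x, Sum.inl y => Sum.inr (j, Sum.inr (Sum.inl (x, y)))
    | j, Sum.inr x, Sum.inr y => Sum.inr (j, Sum.inr (Sum.inr (x, y)))
  left_inv := by
    rintro (⟨j, x, y⟩ | ⟨j, ⟨x, y⟩ | ⟨⟨x, y⟩ | ⟨x, y⟩⟩⟩)
    · simp only [Equiv.symm_apply_apply]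
    · simp only [Equiv.symm_apply_apply]
    · simp only [Equiv.symm_apply_apply]
    · simp only [Equiv.symm_apply_apply]
  right_inv := by
    rintro ⟨j, x, y⟩
    obtain ⟨x, rfl⟩ := finSumFinEquiv.surjective x
    obtain ⟨y, rfl⟩ := finSumFinEquiv.surjective y
    rcases x with x | x <;> rcases y with y | y <;> simp only [Equiv.symm_apply_apply]

/-- the combined parameter -/
noncomputable def PhiM (n N' K : ℕ) :
    ((Fin n × Fin N' × Fin N' → ℝ) × (Bd n N' K → ℝ)) →
      (Fin n × Fin (N' + K) × Fin (N' + K) → ℝ) := fun p =>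
  (MeasurableEquiv.piCongrLeft (fun _ => ℝ) (EE n N' K))
    ((MeasurableEquiv.sumPiEquivProdPi (fun _ : (Fin n × Fin N' × Fin N') ⊕ Bd n N' K => ℝ)).symm p)

lemma PhiM_mp (n N' K : ℕ) : MeasurePreserving (PhiM n N' K)
    ((gam (Fin n × Fin N' × Fin N')).prod (gam (Bd n N' K)))
    (gam (Fin n × Fin (N' + K) × Fin (N' + K))) := by
  have h1 := measurePreserving_sumPiEquivProdPi_symm
    (X := fun _ : (Fin n × Fin N' × Fin N') ⊕ Bd n N' K => ℝ)
    (fun _ => gaussianReal 0 1)
  have h2 := measurePreserving_piCongrLeft (α := fun _ => ℝ)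
    (fun _ : Fin n × Fin (N' + K) × Fin (N' + K) => gaussianReal 0 1) (EE n N' K)
  exact h2.comp h1

lemma PhiM_apply (n N' K : ℕ) (g : Fin n × Fin N' × Fin N' → ℝ) (h : Bd n N' K → ℝ)
    (j : Fin n) (x y : Fin N' ⊕ Fin K) :
    PhiM n N' K (g, h) (j, finSumFinEquiv x, finSumFinEquiv y) = glue g h (j, x, y) := by
  have key : ∀ i : (Fin n × Fin N' × Fin N') ⊕ Bd n N' K,
      PhiM n N' K (g, h) (EE n N' K i) = Sum.elim g h i := by
    intro i
    unfold PhiM
    rw [MeasurableEquiv.coe_piCongrLeft, Equiv.piCongrLeft_apply_apply]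
    rcases i with i | i <;> rfl
  rcases x with x | x <;> rcases y with y | y
  · exact key (Sum.inl (j, x, y))
  · exact key (Sum.inr (j, Sum.inl (x, y)))
  · exact key (Sum.inr (j, Sum.inr (Sum.inl (x, y))))
  · exact key (Sum.inr (j, Sum.inr (Sum.inr (x, y))))

lemma det_eq (n m N' K : ℕ) (a : Fin n → Matrix (Fin m) (Fin m) ℂ) (c : ℂ)
    (g : Fin n × Fin N' × Fin N' → ℝ) (h : Bd n N' K → ℝ) :
    (c • W a (PhiM n N' K (g, h))).det = (c • W a (glue g h)).det := by
  rw [← Matrix.det_submatrix_equiv_self ((Equiv.refl (Fin m)).prodCongr finSumFinEquiv)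
    (c • W a (PhiM n N' K (g, h)))]
  congr 1
  ext ⟨x, k⟩ ⟨y, l⟩
  show c * W a (PhiM n N' K (g, h)) (x, finSumFinEquiv k) (y, finSumFinEquiv l) =
    c * W a (glue g h) (x, k) (y, l)
  rw [W_apply, W_apply]
  congr 1
  refine Finset.sum_congr rfl fun j _ => ?_
  have e1 : ∀ k l : Fin N' ⊕ Fin K, PhiM n N' K (g, h) (j, finSumFinEquiv k, finSumFinEquiv l) =
      glue g h (j, k, l) := PhiM_apply n N' K g h j
  simp only [Hm, e1]

lemma cont_det (n m N : ℕ) (a : Fin n → Matrix (Fin m) (Fin m) ℂ) (c : ℂ) :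
    Continuous fun g : Fin n × Fin N × Fin N → ℝ => (c • W a g).det := by
  refine Continuous.matrix_det ?_
  refine continuous_matrix fun ⟨x, k⟩ ⟨y, l⟩ => ?_
  show Continuous fun g : Fin n × Fin N × Fin N → ℝ => c * W a g (x, k) (y, l)
  simp_rw [W_apply]
  unfold Hm
  fun_prop

theorem cond : S_COND := by
  intro n m N' K a θ s Bad hN' hs hBad
  set c : ℂ := (((Real.sqrt N')⁻¹ : ℝ) : ℂ) with hc
  set S : Set (Fin n × Fin (N' + K) × Fin (N' + K) → ℝ) := {g | ‖(c • W a g).det‖ < θ} with hS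
  have hSm : MeasurableSet S := by
    have : Continuous fun g : Fin n × Fin (N' + K) × Fin (N' + K) → ℝ => ‖(c • W a g).det‖ :=
      (cont_det n m (N' + K) a c).norm
    exact (isOpen_lt this continuous_const).measurableSet
  have hmp := PhiM_mp n N' K
  have h1 : gam (Fin n × Fin (N' + K) × Fin (N' + K)) S =
      ∫⁻ g', gam (Bd n N' K) {h | ‖(c • W a (glue g' h)).det‖ < θ}
        ∂(gam (Fin n × Fin N' × Fin N')) := by
    rw [← hmp.measure_preimage hSm.nullMeasurableSet,
      Measure.prod_apply (hmp.measurable hSm)]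
    refine lintegral_congr fun g' => ?_
    congr 1
    ext h
    simp only [Set.mem_preimage, hS, Set.mem_ofPred_eq, det_eq]
  have h2 : gam (Fin n × Fin (N' + K) × Fin (N' + K)) S ≤
      gam (Fin n × Fin N' × Fin N') Bad + ENNReal.ofReal s := by
    rw [h1]
    calc ∫⁻ g', gam (Bd n N' K) {h | ‖(c • W a (glue g' h)).det‖ < θ}
          ∂(gam (Fin n × Fin N' × Fin N'))
        ≤ ∫⁻ g', ((toMeasurable (gam (Fin n × Fin N' × Fin N')) Bad).indicator 1 g' +
            ENNReal.ofReal s) ∂(gam (Fin n × Fin N' × Fin N')) := by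
          refine lintegral_mono fun g' => ?_
          by_cases hg : g' ∈ Bad
          · have : g' ∈ toMeasurable (gam (Fin n × Fin N' × Fin N')) Bad :=
              subset_toMeasurable _ _ hg
            simp only [Set.indicator_of_mem this, Pi.one_apply]
            exact prob_le_one.trans le_self_add
          · refine le_trans ?_ le_add_self
            have := hBad g' hg
            rw [Measure.real] at this
            exact (ENNReal.le_ofReal_iff_toReal_le (measure_ne_top _ _) hs).2 this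
      _ = gam (Fin n × Fin N' × Fin N') Bad + ENNReal.ofReal s := by
          rw [lintegral_add_right _ measurable_const, lintegral_const, measure_univ, mul_one,
            lintegral_indicator_one (measurableSet_toMeasurable _ _), measure_toMeasurable]
  have h3 := ENNReal.toReal_mono (ENNReal.add_ne_top.2 ⟨measure_ne_top _ _, ENNReal.ofReal_ne_top⟩)
    h2
  rw [ENNReal.toReal_add (measure_ne_top _ _) ENNReal.ofReal_ne_top,
    ENNReal.toReal_ofReal hs] at h3
  exact h3

end Pool.Agent.W74.GB
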